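import Pool.Agent.K1H98.RM.Stm
import Pool.Agent.H353R2.Z2

set_option autoImplicit false

/-! # Project RM: the number of solutions -/

namespace Pool.Agent.K1H96.RM

open Finset Pool.Agent.K1H98.RM

theorem sq_eq {u v : ℕ} (hu : Squarefree u) (hv : Squarefree v) (h : IsSquare (u * v)) :
    u = v := by
  obtain ⟨c, hc⟩ := h
  have h1 : u ∣ c := by
    have : u ∣ c ^ 2 := ⟨v, by rw [pow_two, ← hc]⟩
    exact (hu.dvd_pow_iff_dvd two_ne_zero).mp this
  obtain ⟨t, rfl⟩ := h1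
  have hu0 : 0 < u := Nat.pos_of_ne_zero hu.ne_zero
  have h2 : v = u * (t * t) := by
    apply Nat.eq_of_mul_eq_mul_left hu0
    rw [hc]; ring
  have h3 : IsUnit t := hv t ⟨u, by rw [h2]; ring⟩
  rw [Nat.isUnit_iff] at h3
  rw [h2, h3]; ring

theorem core {g a b g' a' b' : ℕ} (hg : 0 < g) (hg' : 0 < g') (ha : Squarefree a)
    (hb : Squarefree b) (ha' : Squarefree a') (hb' : Squarefree b') (hab : Nat.Coprime a b)
    (hab' : Nat.Coprime a' b')
    (h : IsSquare (a * g * (b * g) * (a' * g' * (b' * g')))) : a * b = a' * b' := by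
  apply sq_eq ((Nat.squarefree_mul hab).mpr ⟨ha, hb⟩) ((Nat.squarefree_mul hab').mpr ⟨ha', hb'⟩)
  obtain ⟨c, hc⟩ := h
  have h1 : (g * g') ∣ c := by
    rw [← Nat.pow_dvd_pow_iff two_ne_zero]
    exact ⟨a * b * (a' * b'), by rw [pow_two c, ← hc]; ring⟩
  obtain ⟨t, rfl⟩ := h1
  refine ⟨t, ?_⟩
  have hpos : 0 < (g * g') * (g * g') := by positivity
  apply Nat.eq_of_mul_eq_mul_left hpos
  calc (g * g') * (g * g') * (a * b * (a' * b')) = a * g * (b * g) * (a' * g' * (b' * g')) := by ring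
    _ = _ := hc
    _ = _ := by ring

/-- the parameters -/
def tg (B j : ℕ) : Finset (Σ _ : ℕ, Σ _ : ℕ, Σ _ : ℕ, ℕ × ℕ) :=
  (Icc 1 j).sigma fun g => (Icc 1 (j / g)).sigma fun h => (Icc 1 B).sigma fun n =>
    (n * (n + h)).divisors ×ˢ Icc 1 (B / n)

/-- the parametrization -/
def ff' (x : Σ _ : ℕ, Σ _ : ℕ, Σ _ : ℕ, ℕ × ℕ) : (ℕ × ℕ) × (ℕ × ℕ) :=
  ((x.1 * (x.2.2.1 + x.2.1), x.1 * x.2.1),
    (x.2.2.2.2 * x.2.2.2.1, x.2.2.2.2 * x.2.2.2.1 -
      x.2.2.2.2 * (x.2.2.1 * (x.2.2.1 + x.2.1) / x.2.2.2.1)))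

theorem sol_sub (A B j : ℕ) : sol A B j ⊆ (tg B j).image ff' := by
  rintro ⟨⟨m, h⟩, ⟨m', h'⟩⟩ hp
  unfold sol at hp
  simp only [mem_filter, mem_product, mem_Ioc, mem_Icc] at hp
  obtain ⟨⟨⟨⟨_, hmB⟩, hh1, hhj⟩, ⟨_, hmB'⟩, hh1', hhj'⟩, ⟨sm, sn, sm', sn'⟩, hsq⟩ := hp
  have hlt : h < m := by
    by_contra hc
    have : m - h = 0 := by omega
    rw [this] at sn
    exact not_squarefree_zero sn
  have hlt' : h' < m' := by
    by_contra hc
    have : m' - h' = 0 := by omega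
    rw [this] at sn'
    exact not_squarefree_zero sn'
  obtain ⟨n, hn⟩ : ∃ n, n = m - h := ⟨_, rfl⟩
  obtain ⟨n', hn'⟩ : ∃ n', n' = m' - h' := ⟨_, rfl⟩
  rw [← hn] at sn hsq
  rw [← hn'] at sn' hsq
  have hg : 0 < Nat.gcd m n := Nat.gcd_pos_of_pos_left _ (by omega)
  have hg' : 0 < Nat.gcd m' n' := Nat.gcd_pos_of_pos_left _ (by omega)
  obtain ⟨a, b, hab, ea, eb⟩ := Nat.exists_coprime m n
  obtain ⟨a', b', hab', ea', eb'⟩ := Nat.exists_coprime m' n'
  obtain ⟨g, hgd⟩ : ∃ g, g = Nat.gcd m n := ⟨_, rfl⟩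
  obtain ⟨g', hgd'⟩ : ∃ g', g' = Nat.gcd m' n' := ⟨_, rfl⟩
  rw [← hgd] at hg ea eb
  rw [← hgd'] at hg' ea' eb'
  have key : a * b = a' * b' := by
    refine core hg hg' ?_ ?_ ?_ ?_ hab hab' ?_
    · rw [ea] at sm; exact sm.of_mul_left
    · rw [eb] at sn; exact sn.of_mul_left
    · rw [ea'] at sm'; exact sm'.of_mul_left
    · rw [eb'] at sn'; exact sn'.of_mul_left
    · rwa [ea, eb, ea', eb'] at hsq
  have hb0 : 0 < b := by
    rcases Nat.eq_zero_or_pos b with h0 | h0
    · rw [h0, zero_mul] at eb; omega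
    · exact h0
  have hb0' : 0 < b' := by
    rcases Nat.eq_zero_or_pos b' with h0 | h0
    · rw [h0, zero_mul] at eb'; omega
    · exact h0
  have hba : b < a := by
    by_contra hc
    have : a * g ≤ b * g := Nat.mul_le_mul_right _ (by omega)
    omega
  have hba' : b' < a' := by
    by_contra hc
    have : a' * g' ≤ b' * g' := Nat.mul_le_mul_right _ (by omega)
    omega
  obtain ⟨h1, rfl⟩ : ∃ h1, a = b + h1 := ⟨a - b, by omega⟩
  have ehg : h = g * h1 := by
    have e1 : m = n + h := by omega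
    have e2 : (b + h1) * g = b * g + g * h1 := by ring
    omega
  have hh1pos : 0 < h1 := by omega
  rw [mem_image]
  refine ⟨⟨g, h1, b, (a', g')⟩, ?_, ?_⟩
  · unfold tg
    simp only [mem_sigma, mem_Icc, mem_product, Nat.mem_divisors]
    refine ⟨⟨hg, ?_⟩, ⟨hh1pos, ?_⟩, ⟨hb0, ?_⟩, ⟨⟨b', ?_⟩, ?_⟩, hg', ?_⟩
    · calc g = g * 1 := (mul_one g).symm
        _ ≤ g * h1 := Nat.mul_le_mul_left _ hh1pos
        _ ≤ j := by omega
    · rw [Nat.le_div_iff_mul_le hg, mul_comm]
      omega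
    · calc b = b * 1 := (mul_one b).symm
        _ ≤ b * g := Nat.mul_le_mul_left _ hg
        _ ≤ B := by omega
    · rw [← key]; ring
    · positivity
    · rw [Nat.le_div_iff_mul_le hb0]
      have h2 : b ≤ a' := by
        by_contra hc
        push Not at hc
        have h3 : a' * b' < b * b := Nat.mul_lt_mul'' hc (hba'.trans hc)
        have h4 : b * b ≤ (b + h1) * b := Nat.mul_le_mul_right _ (by omega)
        omega
      calc g' * b ≤ g' * a' := Nat.mul_le_mul_left _ h2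
        _ = a' * g' := mul_comm _ _
        _ ≤ B := by omega
  · unfold ff'
    simp only [Prod.mk.injEq]
    have e1 : b * (b + h1) / a' = b' := by
      have : b * (b + h1) = a' * b' := by rw [← key]; ring
      rw [this, Nat.mul_div_cancel_left _ (by omega)]
    refine ⟨⟨by rw [ea]; ring, ehg.symm⟩, by rw [ea']; ring, ?_⟩
    rw [e1]
    have e2 : g' * a' = m' := by rw [ea']; ring
    have e3 : g' * b' = n' := by rw [eb']; ring
    rw [e2, e3]
    omega

lemma harm_le (j : ℕ) : ∑ e ∈ Icc 1 j, (e : ℝ)⁻¹ ≤ 1 + Real.log j := by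
  have h := harmonic_le_one_add_log j
  rw [harmonic_eq_sum_Icc] at h
  push_cast at h
  exact h

theorem t_CNT : S_CNT := by
  intro η hη
  obtain ⟨C, hC, hdiv⟩ := H353.divisor_bound_real (η / 4) (by positivity)
  refine ⟨C * 2 ^ (η / 4) * (1 + 4 / η) ^ 2, by positivity, fun A B j hj hjB => ?_⟩
  have hB1 : 1 ≤ B := hj.trans hjB
  have hB1r : (1 : ℝ) ≤ B := by exact_mod_cast hB1
  have hB0r : (0 : ℝ) < B := by linarith
  obtain ⟨T, hT⟩ : ∃ T : ℝ, T = C * (2 * (B : ℝ) ^ 2) ^ (η / 4) := ⟨_, rfl⟩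
  have hT0 : 0 ≤ T := by rw [hT]; positivity
  have h1 : ((sol A B j).card : ℝ) ≤ ((tg B j).card : ℝ) := by
    exact_mod_cast (card_le_card (sol_sub A B j)).trans card_image_le
  have hLB : 0 ≤ 1 + Real.log B := by
    have := Real.log_nonneg hB1r; linarith
  have h2 : ((tg B j).card : ℝ) ≤ T * (B * (1 + Real.log B)) * (j * (1 + Real.log j)) := by
    unfold tg
    simp only [card_sigma, card_product, Nat.card_Icc, Nat.add_sub_cancel]
    push_cast
    calc ∑ g ∈ Icc 1 j, ∑ h ∈ Icc 1 (j / g), ∑ n ∈ Icc 1 B,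
          (((n * (n + h)).divisors.card : ℕ) : ℝ) * ((B / n : ℕ) : ℝ)
        ≤ ∑ g ∈ Icc 1 j, ∑ _h ∈ Icc 1 (j / g), T * (B * (1 + Real.log B)) := by
          refine sum_le_sum fun g hg => sum_le_sum fun h hh => ?_
          rw [mem_Icc] at hg hh
          have hhj : h ≤ j := hh.2.trans (Nat.div_le_self _ _)
          calc ∑ n ∈ Icc 1 B, (((n * (n + h)).divisors.card : ℕ) : ℝ) * ((B / n : ℕ) : ℝ)
              ≤ ∑ n ∈ Icc 1 B, T * (B * (n : ℝ)⁻¹) := by
                refine sum_le_sum fun n hn => ?_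
                rw [mem_Icc] at hn
                have e1 : (((n * (n + h)).divisors.card : ℕ) : ℝ) ≤ T := by
                  have hne : n * (n + h) ≠ 0 := by
                    have : 0 < n * (n + h) := Nat.mul_pos hn.1 (by omega)
                    omega
                  refine (hdiv _ hne).trans ?_
                  rw [hT]
                  have e2 : ((n * (n + h) : ℕ) : ℝ) ≤ 2 * (B : ℝ) ^ 2 := by
                    have : n * (n + h) ≤ 2 * B ^ 2 := by
                      calc n * (n + h) ≤ B * (B + B) := Nat.mul_le_mul hn.2 (by omega)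
                        _ = 2 * B ^ 2 := by ring
                    exact_mod_cast this
                  gcongr
                have e3 : ((B / n : ℕ) : ℝ) ≤ B * (n : ℝ)⁻¹ := by
                  rw [← div_eq_mul_inv]
                  exact Nat.cast_div_le
                exact mul_le_mul e1 e3 (Nat.cast_nonneg _) hT0
            _ = T * (B * ∑ n ∈ Icc 1 B, (n : ℝ)⁻¹) := by rw [← mul_sum, ← mul_sum]
            _ ≤ T * (B * (1 + Real.log B)) := by
                gcongr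
                exact harm_le B
      _ = ∑ g ∈ Icc 1 j, ((j / g : ℕ) : ℝ) * (T * (B * (1 + Real.log B))) := by
          refine sum_congr rfl fun g _ => ?_
          rw [sum_const, Nat.card_Icc, Nat.add_sub_cancel, nsmul_eq_mul]
      _ ≤ ∑ g ∈ Icc 1 j, (j * (g : ℝ)⁻¹) * (T * (B * (1 + Real.log B))) := by
          refine sum_le_sum fun g _ => ?_
          apply mul_le_mul_of_nonneg_right _ (by positivity)
          rw [← div_eq_mul_inv]
          exact Nat.cast_div_le
      _ = (j * ∑ g ∈ Icc 1 j, (g : ℝ)⁻¹) * (T * (B * (1 + Real.log B))) := by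
          rw [mul_sum, sum_mul]
      _ ≤ (j * (1 + Real.log j)) * (T * (B * (1 + Real.log B))) := by
          apply mul_le_mul_of_nonneg_right _ (by positivity)
          gcongr
          exact harm_le j
      _ = _ := by ring
  have hlog : 1 + Real.log B ≤ (1 + 4 / η) * (B : ℝ) ^ (η / 4) := by
    have e1 := Real.log_le_rpow_div hB0r.le (show 0 < η / 4 by positivity)
    have e2 : (1 : ℝ) ≤ (B : ℝ) ^ (η / 4) := Real.one_le_rpow hB1r (by positivity)
    have e3 : (B : ℝ) ^ (η / 4) / (η / 4) = 4 / η * (B : ℝ) ^ (η / 4) := by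
      field_simp
    rw [e3] at e1
    linarith
  have hlogj : 1 + Real.log j ≤ (1 + 4 / η) * (B : ℝ) ^ (η / 4) := by
    have : Real.log j ≤ Real.log B :=
      Real.log_le_log (by exact_mod_cast hj) (by exact_mod_cast hjB)
    linarith
  have hTe : T = C * 2 ^ (η / 4) * ((B : ℝ) ^ (η / 4)) ^ 2 := by
    rw [hT, Real.mul_rpow (by norm_num) (by positivity), ← Real.rpow_natCast (B : ℝ) 2,
      ← Real.rpow_mul hB0r.le, ← Real.rpow_natCast ((B : ℝ) ^ (η / 4)) 2, ← Real.rpow_mul hB0r.le,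
      mul_comm (η / 4) ((2 : ℕ) : ℝ), mul_assoc]
  have hpow : (B : ℝ) ^ (1 + η) = B * ((B : ℝ) ^ (η / 4)) ^ 4 := by
    rw [Real.rpow_add hB0r, Real.rpow_one, ← Real.rpow_natCast ((B : ℝ) ^ (η / 4)) 4,
      ← Real.rpow_mul hB0r.le]
    congr 2
    push_cast
    ring
  have hj0 : 0 ≤ 1 + Real.log j := by
    have := Real.log_nonneg (show (1 : ℝ) ≤ j by exact_mod_cast hj); linarith
  calc ((sol A B j).card : ℝ) ≤ T * (B * (1 + Real.log B)) * (j * (1 + Real.log j)) := h1.trans h2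
    _ ≤ T * (B * ((1 + 4 / η) * (B : ℝ) ^ (η / 4))) * (j * ((1 + 4 / η) * (B : ℝ) ^ (η / 4))) := by
        gcongr
    _ = C * 2 ^ (η / 4) * (1 + 4 / η) ^ 2 * (B : ℝ) ^ (1 + η) * j := by
        rw [hTe, hpow]; ring

end Pool.Agent.K1H96.RM
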